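import Pool.Agent.Lib.MP_e8be47_lc.Splitting
import Pool.Agent.Lib.MP_e8be47_lc.Reaping

/-!
# MP_e8be47_lc: no barely independent family over any infinite cardinal below the splitting number
-/

open Cardinal Pool.Agent.Lib.MP_e8be47_lc

namespace Pool.Agent.Results.MP_e8be47_lc.Main

/-- A barely independent family over an infinite cardinal `κ` exists only if `𝔰 ≤ κ`. -/
theorem result (κ : Cardinal.{0}) (hκ : ℵ₀ ≤ κ) (h : κ < splittingNumber) : ¬ ExistsBIF κ := by
  rintro ⟨I, hI⟩
  have hinf : Infinite κ.ord.ToType := by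
    rw [Cardinal.infinite_iff]
    simpa using hκ
  obtain ⟨A, hA⟩ := hI.exists_seq
  exact no_bseq_of_lt_splittingNumber (by simpa using h) A hA

end Pool.Agent.Results.MP_e8be47_lc.Main
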