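import Pool.Agent.Lib.MP_e8be47_lc.XMain

/-!
# MP_e8be47_lc, Q1: it is consistent that `𝔠 = ω₂` and there is no barely independent family over
`ω₁` and none over `𝔠`

`M` is a type with a relation `E` (`E x y` is read `x ∈ y`); all notions below are first order over
`(M, E)`.
-/

open MP9708F E8

namespace Pool.Agent.Results.MP_e8be47_lc.NoFamilies

/-- There is a model `(M, E)` of ZFC in which `2^ω = ω₂` (`w = ω`, `w1 = ω₁`, `w2 = ω₂`, `R = P(ω)`,
`|R| = w2`) and there is neither a barely independent family over `ω₁` nor one over `ω₂ = 𝔠`. -/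
theorem result : ∃ (M : Type 1) (E : M → M → Prop), ModelsZFC E ∧ ∃ w w1 w2 R : M,
    IsOmega E w ∧ IsNext E w w1 ∧ IsNext E w1 w2 ∧ IsPower E R w ∧ HasCard E R w2 ∧
    (¬ ∃ I, IsBIF E w w1 I) ∧ ¬ ∃ I, IsBIF E w w2 I := E8.main

end Pool.Agent.Results.MP_e8be47_lc.NoFamilies
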