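import Pool.Agent.Lib.MP_e8be47_lc.Reaping

/-!
# MP_e8be47_lc: barely independent families and the reaping number

If `𝔯 = 𝔠` there is a barely independent family over `𝔠`; there is none over any `κ` with
`𝔯 < cf κ`. So if the continuum is regular, a barely independent family over it exists iff `𝔯 = 𝔠`.
-/

open Cardinal Pool.Agent.Lib.MP_e8be47_lc

namespace Pool.Agent.Results.MP_e8be47_lc.Reaping

theorem reaping_le : reapingNumber ≤ 𝔠 := by
  have h1 : reapingNumber ≤ #{R : Set ℕ | R.Infinite} := by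
    refine csInf_le' ⟨{R | R.Infinite}, rfl, fun R hR => hR, ?_⟩
    intro S
    by_cases hS : S.Infinite
    · refine ⟨S, hS, ?_⟩
      rintro ⟨_, h⟩
      simp at h
    · refine ⟨Sᶜ, (Set.not_infinite.mp hS).infinite_compl, ?_⟩
      rintro ⟨h, _⟩
      simp at h
  refine h1.trans ((Cardinal.mk_set_le _).trans ?_)
  rw [Cardinal.mk_set, Cardinal.mk_nat, Cardinal.two_power_aleph0]

theorem exists_of_eq (h : reapingNumber = 𝔠) : ExistsBIF 𝔠 := by
  have hinf : Infinite (𝔠 : Cardinal.{0}).ord.ToType := by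
    rw [Cardinal.infinite_iff]
    simpa using Cardinal.aleph0_le_continuum
  obtain ⟨A, hA⟩ := exists_isBSeq_of_reapingNumber_eq h
  exact ⟨_, hA.isBarelyIndependent⟩

theorem not_exists_of_lt (κ : Cardinal.{0}) (h : reapingNumber < κ.ord.cof) : ¬ ExistsBIF κ := by
  have hκ : ℵ₀ ≤ κ := (aleph0_lt_reapingNumber.le.trans h.le).trans (Ordinal.cof_ord_le κ)
  have hinf : Infinite κ.ord.ToType := by
    rw [Cardinal.infinite_iff]
    simpa using hκ
  rintro ⟨I, hI⟩
  obtain ⟨A, hA⟩ := hI.exists_seq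
  refine not_isBSeq_of_reapingNumber_lt_cof ?_ A hA
  have h1 : #(κ.ord.ToType) = κ := by simp
  rw [h1]
  exact h

/-- If `𝔯 = 𝔠` then there is a barely independent family over `𝔠` (regular or singular). There is no
barely independent family over a cardinal `κ` with `𝔯 < cf κ`. So if `𝔠` is regular (for instance
if `𝔠 = ω₂`), then there is a barely independent family over `𝔠` if and only if `𝔯 = 𝔠`. -/
theorem result :
    (reapingNumber = 𝔠 → ExistsBIF 𝔠) ∧
    (∀ κ : Cardinal.{0}, reapingNumber < κ.ord.cof → ¬ ExistsBIF κ) ∧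
    ((𝔠 : Cardinal.{0}).IsRegular → (ExistsBIF 𝔠 ↔ reapingNumber = 𝔠)) := by
  refine ⟨exists_of_eq, not_exists_of_lt, fun hc => ⟨fun h => ?_, exists_of_eq⟩⟩
  by_contra hne
  refine not_exists_of_lt 𝔠 ?_ h
  rw [hc.cof_ord]
  exact lt_of_le_of_ne reaping_le hne

end Pool.Agent.Results.MP_e8be47_lc.Reaping
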